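import Pool.Agent.Helper185.DelFinal
import Pool.Agent.Helper292.ForceCH

/-!
Under the continuum hypothesis there is a set of reals with property `δ_p` for every nonprincipal
ultrafilter `p` and without property `γ_q` for some nonprincipal ultrafilter `q`.
-/

namespace Pool.Agent.Results.MP_91e6fa_gt.ConsistentlyFails

open Pool.Agent.Helper185.Del

theorem under_ch (hCH : Cardinal.aleph 1 = Cardinal.continuum.{0}) :
    ∃ X : Set ℝ, (∀ p : Ultrafilter ℕ, Nonprincipal p → DeltaP p X) ∧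
      ∃ q : Ultrafilter ℕ, Nonprincipal q ∧ ¬ GammaP q X := by
  obtain ⟨X, h1, q, hq, -, h2⟩ := exists_real hCH
  exact ⟨X, fun p hp => h1.deltaP hp, q, hq, h2⟩

theorem result :
    (∃ (P : Type) (_ : Preorder P), Nonempty P ∧ ∀ p : P,
      p ∈ Pool.Agent.Helper292.ForceCH.OmegaOnePreserved P ∧
      p ∈ Pool.Agent.Helper292.ForceCH.CHHolds P) ∧
    (Cardinal.aleph 1 = Cardinal.continuum.{0} →
    ∃ X : Set ℝ, (∀ p : Ultrafilter ℕ, Nonprincipal p → DeltaP p X) ∧
      ∃ q : Ultrafilter ℕ, Nonprincipal q ∧ ¬ GammaP q X) := by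
  refine ⟨?_, under_ch⟩
  obtain ⟨P, i, h1, h2⟩ := Pool.Agent.Helper292.ForceCH.exists_forcing
  exact ⟨P, i, h1, fun p => ⟨(h2 p).1, (h2 p).2.2⟩⟩

end Pool.Agent.Results.MP_91e6fa_gt.ConsistentlyFails
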