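import Pool.Agent.Helper185.DelFinal

/-!
Under the continuum hypothesis there is a set of reals with property `δ_p` for every nonprincipal
ultrafilter `p` and without property `γ_q` for some nonprincipal ultrafilter `q`.
-/

namespace Pool.Agent.Results.MP_91e6fa_gt.CounterexampleCH

open Pool.Agent.Helper185.Del

/-- Under the continuum hypothesis there is a set of reals with property `δ_p` for every
nonprincipal ultrafilter `p` and without property `γ_q` for some nonprincipal ultrafilter `q`. -/
theorem result (hCH : Cardinal.aleph 1 = Cardinal.continuum.{0}) :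
    ∃ X : Set ℝ, (∀ p : Ultrafilter ℕ, Nonprincipal p → DeltaP p X) ∧
      ∃ q : Ultrafilter ℕ, Nonprincipal q ∧ ¬ GammaP q X := by
  obtain ⟨X, h1, q, hq, -, h2⟩ := exists_real hCH
  exact ⟨X, fun p hp => h1.deltaP hp, q, hq, h2⟩

end Pool.Agent.Results.MP_91e6fa_gt.CounterexampleCH
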