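import Pool.Agent.Helper185.DelFinal

/-!
If the properties `δ_p` for all `p` imply the properties `γ_p` for all `p` for sets of reals, then
the continuum hypothesis fails.
-/

namespace Pool.Agent.Results.MP_91e6fa_gt.ImplicationRefutesCH

open Pool.Agent.Helper185.Del

/-- If every set of reals with property `δ_p` for all nonprincipal ultrafilters `p` has property
`γ_p` for all nonprincipal ultrafilters `p`, then the continuum hypothesis fails. -/
theorem result :
    (∀ X : Set ℝ, (∀ p : Ultrafilter ℕ, Nonprincipal p → DeltaP p X) →
      ∀ p : Ultrafilter ℕ, Nonprincipal p → GammaP p X) →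
      Cardinal.aleph 1 ≠ Cardinal.continuum.{0} := by
  intro h hCH
  obtain ⟨X, h1, q, hq, -, h2⟩ := exists_real hCH
  exact h2 (h X (fun p hp => h1.deltaP hp) q hq)

end Pool.Agent.Results.MP_91e6fa_gt.ImplicationRefutesCH
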